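import Pool.Agent.J6H36.LF.Stm

/-! # Module CONJ of project LF -/

set_option autoImplicit false

universe u

namespace Pool.Agent.J6H77.LF

open MvPolynomial Pool.Agent.J6H36.LF

/-- conjugates of algebraic elements are algebraic -/
theorem alg_conj {P : Type} [Field P] {K Ω : Type u} [Field K] [Field Ω]
    [Algebra P K] [Algebra K Ω] [Algebra P Ω] [IsScalarTower P K Ω]
    {A : IntermediateField K Ω} (σ : A ≃ₐ[K] A) {x : A} (hx : IsAlgebraic P (x : Ω)) :
    IsAlgebraic P ((σ x : A) : Ω) := by
  obtain ⟨p, hp, h⟩ := hx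
  refine ⟨p, hp, ?_⟩
  have h1 : Polynomial.aeval (x : Ω) (p.map (algebraMap P K)) = 0 := by
    rw [Polynomial.aeval_map_algebraMap, h]
  have h2 : Polynomial.aeval x (p.map (algebraMap P K)) = 0 := by
    have h2' := Polynomial.aeval_algHom_apply A.val x (p.map (algebraMap P K))
    have h2'' : A.val (Polynomial.aeval x (p.map (algebraMap P K))) = A.val 0 := by
      rw [map_zero, ← h2']
      exact h1
    exact A.val.injective h2''
  have h3 : Polynomial.aeval (σ x) (p.map (algebraMap P K)) = 0 := by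
    have := Polynomial.aeval_algHom_apply (σ : A →ₐ[K] A) x (p.map (algebraMap P K))
    rw [h2, map_zero] at this
    exact this
  have h4 : Polynomial.aeval ((σ x : A) : Ω) (p.map (algebraMap P K)) = 0 := by
    have := Polynomial.aeval_algHom_apply A.val (σ x) (p.map (algebraMap P K))
    rw [h3, map_zero] at this
    exact this
  rwa [Polynomial.aeval_map_algebraMap] at h4

theorem t_CONJ : S_CONJ.{u} := by
  intro P _ K Ω _ _ _ _ _ _ _ A _ _ m e he d t₀ ht₀ ι b hb
  classical
  let k := algebraicClosure P Ω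
  haveI : Fintype (A ≃ₐ[K] A) := Fintype.ofFinite _
  -- independence over `k`
  have hb' : AlgebraicIndependent k (fun p => algebraMap K Ω (b p)) := by
    have h1 := hb.map' (f := IsScalarTower.toAlgHom P K Ω) (algebraMap K Ω).injective
    exact h1.algebraicClosure
  have hk : ∀ x : Ω, IsAlgebraic P x → x ∈ k := fun x hx => (mem_algebraicClosure_iff).2 hx
  let M : (A ≃ₐ[K] A) → Fin m → k := fun σ l => ⟨((σ (e l) : A) : Ω), hk _ (alg_conj σ (he l))⟩
  let c : (A ≃ₐ[K] A) → Fin d → k := fun σ i => ⟨((σ (t₀ i) : A) : Ω), hk _ (alg_conj σ (ht₀ i))⟩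
  -- the rows of `M` are independent
  let f : ((A ≃ₐ[K] A) → k) →ₗ[k] (Fin m → k) :=
    { toFun := fun a l => ∑ σ, a σ * M σ l
      map_add' := by
        intro a a'
        funext l
        simp only [Pi.add_apply, add_mul, Finset.sum_add_distrib]
      map_smul' := by
        intro r a
        funext l
        simp only [Pi.smul_apply, smul_eq_mul, RingHom.id_apply, Finset.mul_sum, mul_assoc] }
  have hf : LinearMap.ker f = ⊥ := by
    rw [LinearMap.ker_eq_bot']
    intro a ha
    have h1 : ∀ l, ∑ σ : A ≃ₐ[K] A, ((a σ : k) : Ω) * ((σ (e l) : A) : Ω) = 0 := by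
      intro l
      have := congrArg (algebraMap k Ω) (congrFun ha l)
      change algebraMap k Ω (∑ σ, a σ * M σ l) = algebraMap k Ω 0 at this
      rw [map_sum, map_zero] at this
      rw [← this]
      refine Finset.sum_congr rfl fun σ _ => ?_
      rw [map_mul]
      rfl
    have h2 : ∀ x : A, ∑ σ : A ≃ₐ[K] A, ((a σ : k) : Ω) * ((σ x : A) : Ω) = 0 := by
      intro x
      let g : A →ₗ[K] Ω := ∑ σ : A ≃ₐ[K] A,
        (LinearMap.mulLeft K ((a σ : k) : Ω)).comp (A.val.toLinearMap.comp σ.toLinearMap)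
      have hg : ∀ x, g x = ∑ σ : A ≃ₐ[K] A, ((a σ : k) : Ω) * ((σ x : A) : Ω) := by
        intro x
        simp [g, LinearMap.sum_apply]
      have : g = 0 := e.ext fun l => by rw [hg, h1, LinearMap.zero_apply]
      rw [← hg, this, LinearMap.zero_apply]
    have h3 := linearIndependent_monoidHom A Ω
    have h4 : Function.Injective (fun σ : A ≃ₐ[K] A =>
        (((A.val.comp (σ : A →ₐ[K] A)) : A →ₐ[K] Ω) : A →* Ω)) := by
      intro σ τ h
      ext x
      exact congrArg (fun (q : A →* Ω) => q x) h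
    have h5 := h3.comp _ h4
    rw [Fintype.linearIndependent_iff] at h5
    funext σ
    have h6 := h5 (fun σ => ((a σ : k) : Ω)) (by
      funext x
      rw [Finset.sum_apply]
      have := h2 x
      rw [Pi.zero_apply, ← this]
      rfl) σ
    exact Subtype.ext h6
  obtain ⟨g, hg⟩ := f.exists_leftInverse_of_injective hf
  let N : Fin m → (A ≃ₐ[K] A) → k := fun l σ => g (Pi.single l 1) σ
  have hMN : ∀ σ σ', ∑ l, M σ l * N l σ' = if σ = σ' then 1 else 0 := by
    intro σ σ'
    have h1 : f (Pi.single σ 1) = ∑ l, M σ l • (Pi.single l 1 : Fin m → k) := by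
      funext l
      change ∑ τ, (Pi.single σ 1 : (A ≃ₐ[K] A) → k) τ * M τ l = _
      rw [Finset.sum_apply, Finset.sum_eq_single σ, Finset.sum_eq_single l]
      · simp
      · intro l' _ h
        rw [Pi.smul_apply, Pi.single_eq_of_ne (Ne.symm h), smul_zero]
      · intro h
        exact absurd (Finset.mem_univ _) h
      · intro τ _ h
        rw [Pi.single_eq_of_ne h, zero_mul]
      · intro h
        exact absurd (Finset.mem_univ _) h
    have h2 : g (f (Pi.single σ 1)) = Pi.single σ 1 := LinearMap.congr_fun hg _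
    rw [h1, map_sum] at h2
    have h3 := congrFun h2 σ'
    rw [Finset.sum_apply] at h3
    have h4 : ∀ l ∈ (Finset.univ : Finset (Fin m)),
        g (M σ l • (Pi.single l 1 : Fin m → k)) σ' = M σ l * N l σ' := by
      intro l _
      rw [map_smul]
      rfl
    rw [Finset.sum_congr rfl h4] at h3
    rw [h3, Pi.single_apply]
    simp only [eq_comm]
  -- the homomorphism `θ`
  let θ : MvPolynomial ((ι × (A ≃ₐ[K] A)) × Fin d) k →ₐ[k] MvPolynomial (ι × (Fin d × Fin m)) k :=
    aeval fun p => C (c p.1.2 p.2) + ∑ l, C (M p.1.2 l) * X (p.1.1, (p.2, l))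
  let τ : MvPolynomial (ι × (Fin d × Fin m)) k →ₐ[k] MvPolynomial ((ι × (A ≃ₐ[K] A)) × Fin d) k :=
    aeval fun q => ∑ σ, C (N q.2.2 σ) * (X ((q.1, σ), q.2.1) - C (c σ q.2.1))
  have hτθ : τ.comp θ = AlgHom.id k _ := by
    apply MvPolynomial.algHom_ext
    rintro ⟨⟨j, σ⟩, i⟩
    rw [AlgHom.comp_apply, AlgHom.id_apply]
    simp only [θ, aeval_X]
    rw [map_add, map_sum]
    have e1 : ∀ r : k, τ (C r) = C r := fun r => by
      rw [← MvPolynomial.algebraMap_eq, ← MvPolynomial.algebraMap_eq]
      exact τ.commutes r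
    simp only [map_mul, e1]
    have e2 : ∀ l, τ (X (j, (i, l))) = ∑ σ', C (N l σ') * (X ((j, σ'), i) - C (c σ' i)) := by
      intro l
      simp only [τ, aeval_X]
    simp only [e2, Finset.mul_sum]
    rw [Finset.sum_comm]
    have e3 : ∀ σ' ∈ (Finset.univ : Finset (A ≃ₐ[K] A)),
        ∑ l, C (M σ l) * (C (N l σ') * (X ((j, σ'), i) - C (c σ' i))) =
        C (if σ = σ' then 1 else 0) * (X ((j, σ'), i) - C (c σ' i)) := by
      intro σ' _
      rw [← hMN σ σ', map_sum, Finset.sum_mul]
      refine Finset.sum_congr rfl fun l _ => ?_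
      rw [map_mul, mul_assoc]
    rw [Finset.sum_congr rfl e3, Finset.sum_eq_single σ]
    · rw [if_pos rfl, map_one, one_mul]
      ring
    · intro σ' _ h
      rw [if_neg (Ne.symm h), map_zero, zero_mul]
    · intro h
      exact absurd (Finset.mem_univ _) h
  have hθ : Function.Injective θ := by
    intro x y h
    have := congrArg τ h
    rw [← AlgHom.comp_apply, ← AlgHom.comp_apply, hτθ] at this
    exact this
  have hcomp : (aeval (fun p : (ι × (A ≃ₐ[K] A)) × Fin d =>
      ((p.1.2 (t₀ p.2 + ∑ l, b (p.1.1, (p.2, l)) • e l) : A) : Ω)) :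
      MvPolynomial ((ι × (A ≃ₐ[K] A)) × Fin d) k →ₐ[k] Ω) =
      (aeval (fun p => algebraMap K Ω (b p))).comp θ := by
    apply MvPolynomial.algHom_ext
    rintro ⟨⟨j, σ⟩, i⟩
    rw [AlgHom.comp_apply, aeval_X]
    simp only [θ, aeval_X]
    rw [map_add, map_sum, map_add, map_sum, MvPolynomial.aeval_C]
    rw [IntermediateField.coe_add, IntermediateField.coe_sum]
    congr 1
    refine Finset.sum_congr rfl fun l _ => ?_
    rw [map_smul, map_mul, MvPolynomial.aeval_C, aeval_X, IntermediateField.coe_smul,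
      Algebra.smul_def, mul_comm]
    rfl
  have hb2 : Function.Injective (aeval (fun p => algebraMap K Ω (b p)) :
      MvPolynomial (ι × (Fin d × Fin m)) k →ₐ[k] Ω) := hb'
  have h9 : Function.Injective ((aeval (fun p => algebraMap K Ω (b p)) :
      MvPolynomial (ι × (Fin d × Fin m)) k →ₐ[k] Ω).comp θ) := by
    intro x y h
    exact hθ (hb2 h)
  rw [← hcomp] at h9
  exact h9

end Pool.Agent.J6H77.LF
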